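import Pool.Agent.Helper71.UB.Bets1
import Pool.Agent.Helper37.UB.Bets2
import Pool.Agent.Helper39.UB.FamCount

/-!
# UB-B4: the second family of bets and the mixture of all bets
-/

set_option autoImplicit false

namespace Pool.Agent.Helper65.CG

open scoped Classical
open Pool.Agent.Helper65.CliqueGame

variable {n q m : ℕ}

namespace H18

theorem Ych_min (Y : Prs q) (y : ℕ) : Ych Y (min y (q ^ 2)) = Ych Y y := by
  unfold Ych
  ext Y'
  rw [Finset.mem_filter, Finset.mem_filter]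
  apply and_congr_right
  intro _
  have h : (Y \ Y').card ≤ q ^ 2 := by
    refine (Finset.card_le_univ _).trans ?_
    rw [Fintype.card_prod, Fintype.card_fin]
    exact le_of_eq (by ring)
  constructor
  · intro h1
    exact h1.trans (min_le_left _ _)
  · intro h1
    exact le_min h1 h

theorem Lg_one_le (hn : 2 ≤ n) : 1 ≤ Lg n := by
  unfold Lg
  rw [Real.le_logb_iff_rpow_le (by norm_num) (by positivity), Real.rpow_one]
  exact_mod_cast hn

theorem add_one_le_two_pow (k : ℕ) : (k : ℝ) + 1 ≤ (2 : ℝ) ^ k := by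
  have h : k + 1 ≤ 2 ^ k := Nat.lt_two_pow_self
  exact_mod_cast h

theorem card_pi_eq {α : Type} [Fintype α] (r : ℕ) (S : Finset α)
    [DecidablePred (fun τ : Fin r → α => ∀ k, τ k ∈ S)] :
    ((Finset.univ : Finset (Fin r → α)).filter (fun τ => ∀ k, τ k ∈ S)).card = S.card ^ r := by
  have h : (Finset.univ : Finset (Fin r → α)).filter (fun τ => ∀ k, τ k ∈ S) =
      Fintype.piFinset (fun _ : Fin r => S) := by
    ext τ
    simp [Fintype.mem_piFinset]
  rw [h, Fintype.card_piFinset]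
  simp

/-- the logarithmic bookkeeping -/
theorem log_step {T A B N S : ℝ} {g C : ℝ} (r : ℕ) (hT : 0 < T) (hN : 0 < N) (hS : 0 < S ^ r)
    (hAB : S = A * B) (hA : r ≠ 0 → 0 < A) (hB : r ≠ 0 → 0 < B) (hC : 0 < C)
    (h : T * (1 / (N * S ^ r) * (2 : ℝ) ^ g) ≤ C) :
    Real.logb 2 T + g ≤ r * (Real.logb 2 A + Real.logb 2 B) + (Real.logb 2 C + Real.logb 2 N) := by
  have h2 : (0 : ℝ) < (2 : ℝ) ^ g := Real.rpow_pos_of_pos (by norm_num) _
  have h3 : T * (2 : ℝ) ^ g ≤ C * (N * S ^ r) := by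
    have h4 : T * (1 / (N * S ^ r) * (2 : ℝ) ^ g) = T * (2 : ℝ) ^ g / (N * S ^ r) := by
      ring
    rw [h4, div_le_iff₀ (by positivity)] at h
    exact h
  have h5 := Real.logb_le_logb_of_le (b := 2) (by norm_num) (by positivity) h3
  rw [Real.logb_mul hT.ne' h2.ne', Real.logb_rpow (by norm_num) (by norm_num),
    Real.logb_mul hC.ne' (by positivity), Real.logb_mul hN.ne' hS.ne', Real.logb_pow] at h5
  have h6 : (r : ℝ) * Real.logb 2 S = r * (Real.logb 2 A + Real.logb 2 B) := by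
    by_cases hr : r = 0
    · rw [hr]
      simp
    · rw [hAB, Real.logb_mul (hA hr).ne' (hB hr).ne']
  rw [h6] at h5
  linarith

end H18

open H18

theorem bet2_ex (m q d J s r : ℕ) (hn : 2 ≤ n) (hs : 1 ≤ s) :
    ∃ β : Finset (Sym2 (Fin n)) → ℝ, (∀ W, 0 ≤ β W) ∧ ∑ W, β W ≤ 1 ∧
      ∀ (ℓ : Sym2 (Fin n) → ℕ), Lab m ℓ → ∀ (C : ℝ), 1 ≤ C → val β ℓ ≤ C →
        Bet2sr ℓ q d J s r (Real.logb 2 C + 20 * (d + 1) * (J + 1) * (q + 1) ^ 3 * (Lg n + 1) * s
          + 2 * (q + 1) ^ 2) := by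
  obtain ⟨FF, hFF1, hFF2⟩ := fam_count m q d J s n hn hs
  -- the normalising constant
  set N : ℝ := (FF.card : ℝ) * (2 ^ (q ^ 2) * ((q : ℝ) ^ 2 + 1)) with hN
  have hNn : 0 ≤ N := by positivity
  let Smp : Finset (Conf q n) → Prs q → Fin (q ^ 2 + 1) → Finset (Conf q n × Prs q) :=
    fun F Y y => F ×ˢ Ych Y (y : ℕ)
  let α : (FF × Prs q × Fin (q ^ 2 + 1)) × (Fin r → Conf q n × Prs q) → ℝ := fun i =>
    if ∀ k, i.2 k ∈ Smp i.1.1 i.1.2.1 i.1.2.2 then
      1 / (N * ((Smp i.1.1 i.1.2.1 i.1.2.2).card : ℝ) ^ r) else 0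
  have hα : ∀ i, 0 ≤ α i := by
    intro i
    simp only [α]
    split_ifs
    · positivity
    · exact le_rfl
  obtain ⟨β, hβ0, hβ1, hβ2⟩ := push α hα (fun i => Ut i.2)
  refine ⟨β, hβ0, ?_, ?_⟩
  · rw [hβ1, Fintype.sum_prod_type]
    have h1 : ∀ a : FF × Prs q × Fin (q ^ 2 + 1),
        ∑ τ : Fin r → Conf q n × Prs q, α (a, τ) ≤ 1 / N := by
      intro a
      simp only [α]
      rw [← Finset.sum_filter, Finset.sum_const, card_pi_eq, nsmul_eq_mul]
      push_cast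
      set c : ℝ := ((Smp a.1 a.2.1 a.2.2).card : ℝ) ^ r with hc
      have hc0 : 0 ≤ c := by positivity
      rcases hc0.eq_or_lt with h | h
      · rw [← h, zero_mul]
        positivity
      · rw [mul_one_div, mul_comm N c, ← div_div, div_self h.ne']
    refine (Finset.sum_le_sum fun a _ => h1 a).trans ?_
    rw [Finset.sum_const, Finset.card_univ, nsmul_eq_mul]
    have h2 : ((Fintype.card (FF × Prs q × Fin (q ^ 2 + 1)) : ℕ) : ℝ) = N := by
      rw [Fintype.card_prod, Fintype.card_prod, Fintype.card_coe, Fintype.card_finset,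
        Fintype.card_prod, Fintype.card_fin, Fintype.card_fin, hN, show q * q = q ^ 2 by ring]
      push_cast
      rfl
    rw [h2]
    rcases hNn.eq_or_lt with h | h
    · rw [← h]
      simp
    · rw [mul_one_div, div_self h.ne']
  · intro ℓ hℓ C hC hval V lev x hCpx Y y T g hT hTm
    set F := Fam ℓ V lev x with hF
    have hFF : F ∈ FF := hFF2 ℓ hℓ V lev x hCpx
    have hFFpos : 0 < FF.card := Finset.card_pos.2 ⟨F, hFF⟩
    have hNpos : 0 < N := by
      rw [hN]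
      have : (0 : ℝ) < FF.card := by exact_mod_cast hFFpos
      positivity
    have hyq : min y (q ^ 2) < q ^ 2 + 1 := Nat.lt_succ_of_le (min_le_right _ _)
    let a : FF × Prs q × Fin (q ^ 2 + 1) := (⟨F, hFF⟩, Y, ⟨min y (q ^ 2), hyq⟩)
    have hSmp : Smp a.1 a.2.1 a.2.2 = F ×ˢ Ych Y y := by
      simp only [Smp, a]
      rw [Ych_min]
    have hcard : ((F ×ˢ Ych Y y).card : ℝ) = (F.card : ℝ) * ((Ych Y y).card : ℝ) := by
      rw [Finset.card_product]
      push_cast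
      rfl
    obtain ⟨τ0, hτ0⟩ := hT
    have hApos : r ≠ 0 → (0 : ℝ) < F.card := by
      intro hr
      have h1 := (hTm τ0 hτ0).1 ⟨0, Nat.pos_of_ne_zero hr⟩
      exact_mod_cast Finset.card_pos.2 ⟨_, h1.1⟩
    have hBpos : r ≠ 0 → (0 : ℝ) < (Ych Y y).card := by
      intro hr
      have h1 := (hTm τ0 hτ0).1 ⟨0, Nat.pos_of_ne_zero hr⟩
      exact_mod_cast Finset.card_pos.2 ⟨_, h1.2⟩
    have hSpos : (0 : ℝ) < ((F ×ˢ Ych Y y).card : ℝ) ^ r := by
      by_cases hr : r = 0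
      · rw [hr, pow_zero]
        norm_num
      · rw [hcard]
        have := hApos hr
        have := hBpos hr
        positivity
    have hmain := hβ2 ℓ (T.image fun τ => (a, τ)) (by
      intro i hi
      obtain ⟨τ, hτ, rfl⟩ := Finset.mem_image.1 hi
      exact (hTm τ hτ).2.1)
    rw [Finset.sum_image (by
      intro τ _ τ' _ h
      exact (Prod.mk.inj h).2)] at hmain
    have hlow : (T.card : ℝ) * (1 / (N * ((F ×ˢ Ych Y y).card : ℝ) ^ r) * (2 : ℝ) ^ g) ≤
        ∑ τ ∈ T, α (a, τ) * (2 : ℝ) ^ (ga ℓ (Ut τ)) := by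
      rw [← nsmul_eq_mul, ← Finset.sum_const]
      apply Finset.sum_le_sum
      intro τ hτ
      have h1 : α (a, τ) = 1 / (N * ((F ×ˢ Ych Y y).card : ℝ) ^ r) := by
        simp only [α]
        rw [if_pos]
        · rw [hSmp]
        · intro k
          rw [hSmp, Finset.mem_product]
          exact (hTm τ hτ).1 k
      rw [h1]
      apply mul_le_mul_of_nonneg_left _ (by positivity)
      exact Real.rpow_le_rpow_of_exponent_le (by norm_num) (hTm τ hτ).2.2
    have hTpos : (0 : ℝ) < T.card := by exact_mod_cast Finset.card_pos.2 ⟨τ0, hτ0⟩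
    have hlog := log_step r hTpos hNpos hSpos hcard hApos hBpos (by linarith)
      (hlow.trans (hmain.trans hval))
    have hNlog : Real.logb 2 N ≤ 20 * (d + 1) * (J + 1) * (q + 1) ^ 3 * (Lg n + 1) * s +
        2 * ((q : ℝ) + 1) ^ 2 := by
      have h1 : (0 : ℝ) < FF.card := by exact_mod_cast hFFpos
      rw [hN, Real.logb_mul h1.ne' (by positivity), Real.logb_mul (by positivity) (by positivity),
        Real.logb_pow, Real.logb_self_eq_one (by norm_num)]
      have h2 : Real.logb 2 ((q : ℝ) ^ 2 + 1) ≤ (q : ℝ) ^ 2 := by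
        rw [Real.logb_le_iff_le_rpow (by norm_num) (by positivity)]
        have h3 := add_one_le_two_pow (q ^ 2)
        rw [← Real.rpow_natCast] at h3
        push_cast at h3
        exact h3
      have h4 : lb FF.card = Real.logb 2 (FF.card : ℝ) := rfl
      rw [h4] at hFF1
      have h5 : (0 : ℝ) ≤ q := Nat.cast_nonneg _
      push_cast
      nlinarith
    have h7 : lb T.card = Real.logb 2 (T.card : ℝ) := rfl
    have h8 : lb F.card = Real.logb 2 (F.card : ℝ) := rfl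
    have h9 : lb (Ych Y y).card = Real.logb 2 ((Ych Y y).card : ℝ) := rfl
    rw [h7, h8, h9]
    linarith

theorem bets (m q d J : ℕ) (hm : 1 ≤ m) (hn : 2 ≤ n) :
    ∃ β : Finset (Sym2 (Fin n)) → ℝ, (∀ U, 0 ≤ β U) ∧ ∑ U, β U ≤ 1 ∧
      ∀ ℓ : Sym2 (Fin n) → ℕ, Lab m ℓ →
        val β ℓ ≤ m + 3 →
        Bet1 ℓ (12 * (Lg n + m + 4)) ∧ Bet2 ℓ q d J (cB m q d J n) := by
  obtain ⟨β1, hβ10, hβ11, hβ1⟩ := bet1_ex hn
  have hex : ∀ z : Fin (n ^ 4) × Fin (n ^ 4),
      ∃ β : Finset (Sym2 (Fin n)) → ℝ, (∀ W, 0 ≤ β W) ∧ ∑ W, β W ≤ 1 ∧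
        ∀ (ℓ : Sym2 (Fin n) → ℕ), Lab m ℓ → ∀ (C : ℝ), 1 ≤ C → val β ℓ ≤ C →
          Bet2sr ℓ q d J ((z.1 : ℕ) + 1) ((z.2 : ℕ) + 1)
            (Real.logb 2 C + 20 * (d + 1) * (J + 1) * (q + 1) ^ 3 * (Lg n + 1) *
              (((z.1 : ℕ) + 1 : ℕ) : ℝ) + 2 * (q + 1) ^ 2) :=
    fun z => bet2_ex m q d J _ _ hn (Nat.le_add_left 1 _)
  choose β2 hβ20 hβ21 hβ2 using hex
  obtain ⟨β, h0, h1, h2⟩ := mix (κ := Option (Fin (n ^ 4) × Fin (n ^ 4)))
    (fun k => match k with | none => β1 | some z => β2 z)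
    (by
      intro k W
      rcases k with _ | z
      · exact hβ10 W
      · exact hβ20 z W)
    (by
      intro k
      rcases k with _ | z
      · exact hβ11
      · exact hβ21 z)
  refine ⟨β, h0, h1, ?_⟩
  intro ℓ hℓ hval
  set C : ℝ := (1 + (n : ℝ) ^ 8) * (m + 3) with hC
  have hn0 : (0 : ℝ) < n := by
    have : 0 < n := by omega
    exact_mod_cast this
  have hn1 : (1 : ℝ) ≤ n := by
    have : 1 ≤ n := by omega
    exact_mod_cast this
  have hm0 : (0 : ℝ) ≤ m := Nat.cast_nonneg _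
  have hn8 : (1 : ℝ) ≤ (n : ℝ) ^ 8 := one_le_pow₀ hn1
  have hC1 : 1 ≤ C := by
    rw [hC]
    nlinarith
  have hcard : ((Fintype.card (Option (Fin (n ^ 4) × Fin (n ^ 4))) : ℕ) : ℝ) = 1 + (n : ℝ) ^ 8 := by
    rw [Fintype.card_option, Fintype.card_prod, Fintype.card_fin]
    push_cast
    ring
  have hk : ∀ k : Option (Fin (n ^ 4) × Fin (n ^ 4)),
      val ((fun k => match k with | none => β1 | some z => β2 z :
        Option (Fin (n ^ 4) × Fin (n ^ 4)) → Finset (Sym2 (Fin n)) → ℝ) k) ℓ ≤ C := by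
    intro k
    refine (h2 ℓ k).trans ?_
    rw [hcard, hC]
    exact mul_le_mul_of_nonneg_left hval (by positivity)
  have hL := Lg_one_le hn
  have hlogC : Real.logb 2 C ≤ 8 * Lg n + m + 3 := by
    rw [hC, Real.logb_mul (by positivity) (by positivity)]
    have e1 : Real.logb 2 (1 + (n : ℝ) ^ 8) ≤ 8 * Lg n + 1 := by
      have e2 : Real.logb 2 (1 + (n : ℝ) ^ 8) ≤ Real.logb 2 (2 * (n : ℝ) ^ 8) :=
        Real.logb_le_logb_of_le (by norm_num) (by positivity) (by linarith)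
      rw [Real.logb_mul (by norm_num) (by positivity), Real.logb_pow,
        Real.logb_self_eq_one (by norm_num)] at e2
      unfold Lg
      push_cast at e2
      linarith
    have e3 : Real.logb 2 ((m : ℝ) + 3) ≤ m + 2 := by
      rw [Real.logb_le_iff_le_rpow (by norm_num) (by positivity)]
      have h3 := add_one_le_two_pow (m + 2)
      rw [← Real.rpow_natCast] at h3
      push_cast at h3
      linarith
    linarith
  constructor
  · have hb := hβ1 ℓ C hC1 (hk none)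
    intro D X hX hA
    refine (hb D X hX hA).trans ?_
    linarith
  · intro s r hs1 hs hr1 hr V lev x hCpx Y y T g hT hTm
    obtain ⟨s', rfl⟩ : ∃ s', s = s' + 1 := ⟨s - 1, by omega⟩
    obtain ⟨r', rfl⟩ : ∃ r', r = r' + 1 := ⟨r - 1, by omega⟩
    have hb := hβ2 (⟨s', by omega⟩, ⟨r', by omega⟩) ℓ hℓ C hC1
      (hk (some (⟨s', by omega⟩, ⟨r', by omega⟩)))
    have hb' := hb V lev x hCpx Y y T g hT hTm
    refine hb'.trans ?_
    apply add_le_add_right
    unfold cB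
    simp only
    set s : ℝ := ((s' + 1 : ℕ) : ℝ) with hsdef
    have hs1' : (1 : ℝ) ≤ s := by
      rw [hsdef]
      exact_mod_cast hs1
    set L := Lg n with hLdef
    set X : ℝ := ((d : ℝ) + 1) * (J + 1) * ((q : ℝ) + 1) ^ 3 * (L + 1) * s with hX
    have hd0 : (0 : ℝ) ≤ d := Nat.cast_nonneg _
    have hJ0 : (0 : ℝ) ≤ J := Nat.cast_nonneg _
    have hq0 : (0 : ℝ) ≤ q := Nat.cast_nonneg _
    have hdJ : (1 : ℝ) ≤ ((d : ℝ) + 1) * (J + 1) := by nlinarith
    have hq3 : ((q : ℝ) + 1) ^ 2 ≤ ((q : ℝ) + 1) ^ 3 := by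
      have : (0 : ℝ) ≤ ((q : ℝ) + 1) ^ 2 * q := by positivity
      nlinarith
    have hq2 : (1 : ℝ) ≤ ((q : ℝ) + 1) ^ 2 := by nlinarith
    have hX1 : L + 1 ≤ X := by
      rw [hX]
      calc L + 1 = 1 * 1 * (L + 1) * 1 := by ring
        _ ≤ (((d : ℝ) + 1) * (J + 1)) * ((q : ℝ) + 1) ^ 3 * (L + 1) * s := by
            gcongr
            exact hq2.trans hq3
    have hX2 : ((q : ℝ) + 1) ^ 2 ≤ X := by
      rw [hX]
      calc ((q : ℝ) + 1) ^ 2 = 1 * ((q : ℝ) + 1) ^ 2 * 1 * 1 := by ring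
        _ ≤ (((d : ℝ) + 1) * (J + 1)) * ((q : ℝ) + 1) ^ 3 * (L + 1) * s := by
            gcongr
            linarith
    have hX0 : 0 ≤ X := by linarith
    have e1 : 20 * ((d : ℝ) + 1) * (J + 1) * ((q : ℝ) + 1) ^ 3 * (L + 1) * s = 20 * X := by
      rw [hX]
      ring
    have e2 : 60 * ((m : ℝ) + 1) * (d + 1) * (J + 1) * ((q : ℝ) + 1) ^ 3 * (L + 1) * s =
        60 * ((m + 1) * X) := by
      rw [hX]
      ring
    rw [e1, e2]
    have e3 : 8 * L + m + 3 ≤ 8 * ((m + 1) * X) := by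
      have : (m + 1) * (L + 1) ≤ ((m : ℝ) + 1) * X := by
        apply mul_le_mul_of_nonneg_left hX1 (by positivity)
      nlinarith
    have e4 : X ≤ (m + 1) * X := by nlinarith
    linarith

end Pool.Agent.Helper65.CG
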